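import Mathlib
import Pool.Agent.K1H83.NS.Stm

/-!
# Almost additive functions

A function `ℂ → ℂ` which is additive outside a countable set agrees there with an additive function.
-/

set_option autoImplicit false

noncomputable section

namespace Pool.Agent.K1H37.NS

/-- one can choose `c` such that finitely many translates and reflections of it avoid a countable
set -/
theorem exists_avoid {S : Set ℂ} (hS : S.Countable) (l : Finset ℂ) :
    ∃ c : ℂ, ∀ a ∈ l, a + c ∉ S ∧ a - c ∉ S := by
  classical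
  set B : Set ℂ := ⋃ a ∈ l, ((fun c : ℂ => a + c) ⁻¹' S ∪ (fun c : ℂ => a - c) ⁻¹' S) with hB
  have hBc : B.Countable := by
    refine l.countable_toSet.biUnion fun a _ => ?_
    refine Set.Countable.union ?_ ?_
    · exact hS.preimage_of_injOn (fun x _ y _ h => add_left_cancel h)
    · exact hS.preimage_of_injOn (fun x _ y _ h => sub_right_injective h)
  have hne : ∃ c : ℂ, c ∉ B := by
    by_contra hcon
    push Not at hcon
    have : (Set.univ : Set ℂ).Countable := hBc.mono fun c _ => hcon c
    exact not_countable_complex this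
  obtain ⟨c, hc⟩ := hne
  refine ⟨c, fun a ha => ⟨fun h => hc ?_, fun h => hc ?_⟩⟩
  · exact Set.mem_biUnion ha (Or.inl h)
  · exact Set.mem_biUnion ha (Or.inr h)

theorem t_ADD_aux : ∀ (S : Set ℂ), S.Countable → ∀ T : ℂ → ℂ,
    (∀ z w, z ∉ S → w ∉ S → z + w ∉ S → z - w ∉ S → T (z + w) = T z + T w) →
    ∃ T' : ℂ → ℂ, (∀ z w, T' (z + w) = T' z + T' w) ∧ ∀ z, z ∉ S → T' z = T z := by
  classical
  intro S hS T hT
  -- independence of the choice
  have ind : ∀ z c c' : ℂ, c ∉ S → z + c ∉ S → c' ∉ S → z + c' ∉ S →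
      T (z + c) - T c = T (z + c') - T c' := by
    intro z c c' h1 h2 h3 h4
    obtain ⟨e, he⟩ := exists_avoid hS {0, z, z + c, z + c', z - c, z - c'}
    have e0 := (he 0 (by simp)).1
    have ez := (he z (by simp)).1
    have ec := he (z + c) (by simp)
    have ec' := he (z + c') (by simp)
    have ed := (he (z - c) (by simp)).1
    have ed' := (he (z - c') (by simp)).1
    rw [zero_add] at e0
    have a1 := hT (z + c) e h2 e0 ec.1 ec.2
    have a2 := hT (z + c') e h4 e0 ec'.1 ec'.2
    have b1 := hT (z + e) c ez h1 (by rw [add_right_comm]; exact ec.1) (by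
      have : z + e - c = z - c + e := by ring
      rwa [this])
    have b2 := hT (z + e) c' ez h3 (by rw [add_right_comm]; exact ec'.1) (by
      have : z + e - c' = z - c' + e := by ring
      rwa [this])
    have q1 : z + e + c = z + c + e := by ring
    have q2 : z + e + c' = z + c' + e := by ring
    rw [q1] at b1
    rw [q2] at b2
    linear_combination b1 - a1 - b2 + a2
  -- a good choice
  have good : ∀ z : ℂ, ∃ c : ℂ, c ∉ S ∧ z + c ∉ S := by
    intro z
    obtain ⟨c, hc⟩ := exists_avoid hS {0, z}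
    refine ⟨c, ?_, (hc z (by simp)).1⟩
    have := (hc 0 (by simp)).1
    rwa [zero_add] at this
  choose f hf1 hf2 using good
  refine ⟨fun z => T (z + f z) - T (f z), fun z w => ?_, fun z hz => ?_⟩
  · obtain ⟨c₁, h₁⟩ := exists_avoid hS {0, z}
    obtain ⟨c₂, h₂⟩ := exists_avoid hS {0, w, c₁, z + w + c₁, z + c₁ - w}
    have c1 := (h₁ 0 (by simp)).1
    have zc1 := (h₁ z (by simp)).1
    have c2 := (h₂ 0 (by simp)).1
    have wc2 := (h₂ w (by simp)).1
    have c12 := h₂ c₁ (by simp)
    have zw := (h₂ (z + w + c₁) (by simp)).1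
    have zd := (h₂ (z + c₁ - w) (by simp)).2
    rw [zero_add] at c1 c2
    have i1 := ind z (f z) c₁ (hf1 z) (hf2 z) c1 zc1
    have i2 := ind w (f w) c₂ (hf1 w) (hf2 w) c2 wc2
    have i3 := ind (z + w) (f (z + w)) (c₁ + c₂) (hf1 _) (hf2 _) c12.1 (by
      have : z + w + (c₁ + c₂) = z + w + c₁ + c₂ := by ring
      rwa [this])
    have a1 := hT (z + c₁) (w + c₂) zc1 wc2 (by
      have : z + c₁ + (w + c₂) = z + w + c₁ + c₂ := by ring
      rwa [this]) (by
      have : z + c₁ - (w + c₂) = z + c₁ - w - c₂ := by ring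
      rwa [this])
    have a2 := hT c₁ c₂ c1 c2 c12.1 c12.2
    have q1 : z + c₁ + (w + c₂) = z + w + (c₁ + c₂) := by ring
    rw [q1] at a1
    change T (z + w + f (z + w)) - T (f (z + w)) = T (z + f z) - T (f z) + (T (w + f w) - T (f w))
    rw [i1, i2, i3, a1, a2]
    ring
  · obtain ⟨c, hc⟩ := exists_avoid hS {0, z}
    have c0 := (hc 0 (by simp)).1
    have zc := hc z (by simp)
    rw [zero_add] at c0
    change T (z + f z) - T (f z) = T z
    rw [ind z (f z) c (hf1 z) (hf2 z) c0 zc.1, hT z c hz c0 zc.1 zc.2]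
    ring

/-- **Piece ADD**. -/
theorem t_ADD : Pool.Agent.K1H83.NS.S_ADD := t_ADD_aux

end Pool.Agent.K1H37.NS
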